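import Pool.Agent.ZRT.StmtsA

/-!
# ZRT, row ISP: conjugation of the isometry
-/

noncomputable section

open scoped ContDiff Topology RealInnerProductSpace
open Set MeasureTheory

namespace Pool.Agent.ZRT.H70

open Pool.Agent.RF Pool.Agent.MVS

theorem open_Om : IsOpen (Om (Fin 5)) := by
  have : Om (Fin 5) = {0}ᶜ := by ext x; simp [Om]
  rw [this]
  exact isOpen_compl_singleton

theorem mem_of_norm {x y : E5} (h : ‖x‖ = ‖y‖) (hy : y ∈ Om (Fin 5)) : x ∈ Om (Fin 5) := by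
  intro hx
  apply hy
  rw [← norm_eq_zero, ← h, norm_eq_zero]
  exact hx

theorem dat {g : E5 → E5} (hg : ContDiffOn ℝ ∞ g (Om (Fin 5))) {x : E5} (hx : x ∈ Om (Fin 5)) :
    DifferentiableAt ℝ g x :=
  ((hg x hx).contDiffAt (open_Om.mem_nhds hx)).differentiableAt (by simp)

theorem isp : IspStatement := by
  intro G Ψ Ψ' f θ hG hD hf
  have hΨm : ∀ x ∈ Om (Fin 5), Ψ x ∈ Om (Fin 5) := fun x hx => mem_of_norm (hD.norm x) hx
  have hΨm' : ∀ x ∈ Om (Fin 5), Ψ' x ∈ Om (Fin 5) := fun x hx => mem_of_norm (hD.norm' x) hx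
  have hfm : ∀ x ∈ Om (Fin 5), f x ∈ Om (Fin 5) := fun x hx => mem_of_norm (hf.norm x) hx
  have h1m : ∀ x ∈ Om (Fin 5), Ψ' (f (Ψ x)) ∈ Om (Fin 5) := fun x hx =>
    hΨm' _ (hfm _ (hΨm x hx))
  have hsm : ContDiffOn ℝ ∞ (fun x : E5 => Ψ' (f (Ψ x))) (Om (Fin 5)) := by
    have h1 : ContDiffOn ℝ ∞ (fun x : E5 => f (Ψ x)) (Om (Fin 5)) :=
      hf.smooth.comp hD.smooth (fun x hx => hΨm x hx)
    exact hD.smooth'.comp h1 (fun x hx => hfm _ (hΨm x hx))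
  -- the chain rule
  have key : ∀ x ∈ Om (Fin 5), ∀ v : E5, fderiv ℝ Ψ (Ψ' (f (Ψ x)))
      (fderiv ℝ (fun x : E5 => Ψ' (f (Ψ x))) x v) = fderiv ℝ f (Ψ x) (fderiv ℝ Ψ x v) := by
    intro x hx v
    have e : (fun y => Ψ (Ψ' (f (Ψ y)))) =ᶠ[𝓝 x] fun y => f (Ψ y) := by
      filter_upwards [open_Om.mem_nhds hx] with y hy
      exact hD.right _ (hfm _ (hΨm y hy))
    have e1 := e.fderiv_eq (𝕜 := ℝ)
    have d1 : DifferentiableAt ℝ Ψ (Ψ' (f (Ψ x))) := dat hD.smooth (h1m x hx)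
    have d2 : DifferentiableAt ℝ (fun x => Ψ' (f (Ψ x))) x := dat hsm hx
    have d3 : DifferentiableAt ℝ f (Ψ x) := dat hf.smooth (hΨm x hx)
    have d4 : DifferentiableAt ℝ Ψ x := dat hD.smooth hx
    have e2 : fderiv ℝ (fun y => Ψ (Ψ' (f (Ψ y)))) x =
        (fderiv ℝ Ψ (Ψ' (f (Ψ x)))).comp (fderiv ℝ (fun x : E5 => Ψ' (f (Ψ x))) x) :=
      fderiv_comp x d1 d2
    have e3 : fderiv ℝ (fun y => f (Ψ y)) x = (fderiv ℝ f (Ψ x)).comp (fderiv ℝ Ψ x) :=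
      fderiv_comp x d3 d4
    rw [e2, e3] at e1
    have := congrArg (fun L : E5 →L[ℝ] E5 => L v) e1
    simpa using this
  have inj : ∀ x ∈ Om (Fin 5), ∀ v : E5, fderiv ℝ Ψ x v = 0 → v = 0 := by
    intro x hx v hv
    have e : (fun y => Ψ' (Ψ y)) =ᶠ[𝓝 x] fun y => y := by
      filter_upwards [open_Om.mem_nhds hx] with y hy
      exact hD.left y hy
    have e1 := e.fderiv_eq (𝕜 := ℝ)
    have d3 : DifferentiableAt ℝ Ψ' (Ψ x) := dat hD.smooth' (hΨm x hx)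
    have d4 : DifferentiableAt ℝ Ψ x := dat hD.smooth hx
    have e3 : fderiv ℝ (fun y => Ψ' (Ψ y)) x = (fderiv ℝ Ψ' (Ψ x)).comp (fderiv ℝ Ψ x) :=
      fderiv_comp x d3 d4
    rw [e3] at e1
    have := congrArg (fun L : E5 →L[ℝ] E5 => L v) e1
    simp only [ContinuousLinearMap.comp_apply, hv, map_zero] at this
    have h2 : fderiv ℝ (fun y : E5 => y) x v = v := by
      rw [fderiv_fun_id]; rfl
    rw [h2] at this
    exact this.symm
  have inn : ∀ x ∈ Om (Fin 5), ∀ v : E5, ⟪Ψ x, fderiv ℝ Ψ x v⟫ = (⟪x, v⟫ : ℝ) := by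
    intro x hx v
    have d4 : DifferentiableAt ℝ Ψ x := dat hD.smooth hx
    have e : (fun y => (⟪Ψ y, Ψ y⟫ : ℝ)) = fun y => (⟪y, y⟫ : ℝ) := by
      funext y
      rw [real_inner_self_eq_norm_sq, real_inner_self_eq_norm_sq, hD.norm]
    have e1 : HasFDerivAt (fun y => (⟪Ψ y, Ψ y⟫ : ℝ)) _ x := d4.hasFDerivAt.inner ℝ d4.hasFDerivAt
    have e2 : HasFDerivAt (fun y : E5 => (⟪y, y⟫ : ℝ)) _ x :=
      (hasFDerivAt_id x).inner ℝ (hasFDerivAt_id x)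
    rw [e] at e1
    have e3 := congrArg (fun L : E5 →L[ℝ] ℝ => L v) (e1.unique e2)
    simp only [ContinuousLinearMap.comp_apply, ContinuousLinearMap.prod_apply,
      fderivInnerCLM_apply, ContinuousLinearMap.id_apply, id_eq] at e3
    rw [real_inner_comm (Ψ x) (fderiv ℝ Ψ x v), real_inner_comm x v] at e3
    linarith
  refine ⟨⟨hsm, ?_, ?_, ?_⟩, ?_⟩
  · intro x
    rw [hD.norm', hf.norm, hD.norm]
  · intro c hc x hx
    show Ψ' (f (Ψ (c • x))) = c • Ψ' (f (Ψ x))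
    rw [hD.hom c hc x hx, hf.hom c hc _ (hΨm x hx), hD.hom' c hc _ (hfm _ (hΨm x hx))]
  · intro x hx v w
    rw [pullb_apply, pullb_apply, key x hx v, key x hx w, hD.right _ (hfm _ (hΨm x hx))]
    exact hf.pres _ (hΨm x hx) _ _
  · intro a ha
    obtain ⟨h1, h2, h3⟩ := ha
    have ha1 : ‖a‖ = 1 := by rw [← hD.norm a]; exact h1
    have ham : a ∈ Om (Fin 5) := by
      intro h0
      have h0' : a = 0 := h0
      rw [h0', norm_zero] at ha1
      exact zero_ne_one ha1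
    have hfa : Ψ' (f (Ψ a)) = a := by rw [h2, hD.left a ham]
    refine ⟨ha1, hfa, ?_⟩
    intro v hv hv0
    have hw1 : (⟪Ψ a, fderiv ℝ Ψ a v⟫ : ℝ) = 0 := by rw [inn a ham v, hv]
    have hw2 : fderiv ℝ Ψ a v ≠ 0 := fun h0 => hv0 (inj a ham v h0)
    obtain ⟨h4, h5⟩ := h3 _ hw1 hw2
    have hk := key a ham v
    rw [hfa] at hk
    refine ⟨?_, ?_⟩
    · intro h6
      rw [h6] at hk
      exact h4 hk.symm
    · rw [pullb_apply, pullb_apply, hk]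
      exact h5

end Pool.Agent.ZRT.H70
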